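import Pool.Agent.Q231.SmallBall.Main

/-!
# Small-ball inverse Littlewood-Offord theorem in growing dimension (MP_ece343_co, Q1)

The conjecture is true, for every dimension `d` (no restriction `d ≤ log n` is needed).
-/

namespace Pool.Agent.Results.MP_ece343_co.AllDimensions

/-- The probability `p(B)` that the random signed sum `x_1 a_1 + ... + x_n a_n` lies in `B`, where
`x` is uniform among the `2^n` sign vectors. -/
noncomputable def signProb {n d : ℕ} (a : Fin n → EuclideanSpace ℝ (Fin d))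
    (B : Set (EuclideanSpace ℝ (Fin d))) : ℝ :=
  (Nat.card {x : Fin n → ℤˣ // (∑ i, ((x i : ℤ) : ℝ) • a i) ∈ B} : ℝ) / 2 ^ n

/-- **Theorem.** For every `ε ∈ (0,1)` and `C > 0` there is `K`, independent of `n` and of the
dimension `d`, such that whenever `n ≥ 2`, `a_1, …, a_n ∈ ℝ^d` and a closed ball `B` of radius
`1/√n` satisfy `p(B) ≥ n^(-C)`, there is a linear subspace `S` with `dim S ≤ K` such that at most
`n^ε` indices `i` have `dist(a_i, S) > n^(-ε)`. -/
theorem result :
    ∀ ε : ℝ, 0 < ε → ε < 1 → ∀ C : ℝ, 0 < C → ∃ K : ℕ,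
      ∀ n : ℕ, 2 ≤ n → ∀ (d : ℕ) (a : Fin n → EuclideanSpace ℝ (Fin d))
        (c : EuclideanSpace ℝ (Fin d)),
        (n : ℝ) ^ (-C) ≤ signProb a (Metric.closedBall c (1 / Real.sqrt n)) →
        ∃ S : Submodule ℝ (EuclideanSpace ℝ (Fin d)), Module.finrank ℝ S ≤ K ∧
          (Nat.card {i : Fin n // (n : ℝ) ^ (-ε) <
            Metric.infDist (a i) (S : Set (EuclideanSpace ℝ (Fin d)))} : ℝ) ≤ (n : ℝ) ^ ε := by
  intro ε hε0 hε1 C _
  obtain ⟨K, hK⟩ := Pool.Agent.Q231.SmallBall.inverse (C := C) hε0 hε1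
  refine ⟨K, ?_⟩
  intro n hn d a c hp
  classical
  have h1 : signProb a (Metric.closedBall c (1 / Real.sqrt n)) =
      ((Pool.Agent.Q231.SmallBall.hits a c (1 / Real.sqrt n)).card : ℝ) / 2 ^ n := by
    unfold signProb
    congr 2
    rw [Nat.card_eq_fintype_card, Fintype.card_subtype]
    exact congrArg Finset.card (by
      ext x
      simp [Pool.Agent.Q231.SmallBall.hits, dist_eq_norm])
  rw [h1] at hp
  obtain ⟨S, hS1, hS2⟩ := hK n (by omega) d a c hp
  refine ⟨S, hS1, ?_⟩
  have h2 : Nat.card {i : Fin n // (n : ℝ) ^ (-ε) <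
      Metric.infDist (a i) (S : Set (EuclideanSpace ℝ (Fin d)))} =
      (Pool.Agent.Q231.SmallBall.far a S ((n : ℝ) ^ (-ε))).card := by
    rw [Nat.card_eq_fintype_card, Fintype.card_subtype]
    exact congrArg Finset.card (by
      ext i
      simp [Pool.Agent.Q231.SmallBall.far])
  rw [h2]
  exact hS2

end Pool.Agent.Results.MP_ece343_co.AllDimensions
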